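import Pool.Agent.Y566.MO.Stm

/-!
Project MO, part RI: invariance of the reduct and uniqueness of the code.
-/

set_option autoImplicit false

namespace Pool.Agent.Y550.MO.Ri

open Pool.Agent.H566P (XG Isom)
open Pool.Agent.Y566.MO

variable {s : G → G → Prop} {y y' : XG G}

theorem act (h : CD s y) (g k : G) (m : ℕ) : y.2.1 g (y.2.1 k m) = y.2.1 (g * k) m :=
  (h.mul g k m).symm

theorem act_inv (h : CD s y) (g : G) (m : ℕ) : y.2.1 g⁻¹ (y.2.1 g m) = m := by
  rw [act h, inv_mul_cancel, h.one]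

theorem ord_pos (h : CD s y) {g : G} (hg : chi g = 1) (p q : ℕ) :
    y.1 (y.2.1 g p) (y.2.1 g q) = y.1 p q := by
  refine Bool.eq_iff_iff.2 ⟨fun h1 => ?_, fun h1 => h.pos g p q hg h1⟩
  have := h.pos g⁻¹ _ _ (by rw [map_inv, hg, inv_one]) h1
  rwa [act_inv h, act_inv h] at this

theorem ord_neg (h : CD s y) {g : G} (hg : chi g = -1) (p q : ℕ) :
    y.1 (y.2.1 g p) (y.2.1 g q) = y.1 q p := by
  refine Bool.eq_iff_iff.2 ⟨fun h1 => ?_, fun h1 => h.neg g q p hg h1⟩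
  have := h.neg g⁻¹ _ _ (by rw [map_inv, hg, inv_neg, inv_one]) h1
  rwa [act_inv h, act_inv h] at this

theorem ord_ne (h : CD s y) {p q : ℕ} (hpq : p ≠ q) : y.1 p q = !y.1 q p := by
  cases h1 : y.1 q p with
  | false =>
    rcases h.tot p q hpq with h2 | h2
    · rw [h2]; rfl
    · rw [h1] at h2
      exact absurd h2 (by simp)
  | true =>
    cases h2 : y.1 p q with
    | false => rfl
    | true =>
      have := h.tr p q p h2 h1
      rw [h.irr] at this
      exact absurd this (by simp)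

theorem en_inj (h : CD s y) : Function.Injective (en y) :=
  Nat.nth_injective h.inf

theorem en_mem (h : CD s y) (n : ℕ) : y.2.2 0 (en y n) = true :=
  Nat.nth_mem_of_infinite h.inf n

theorem en_surj (h : CD s y) {m : ℕ} (hm : y.2.2 0 m = true) : ∃ n, en y n = m := by
  have h1 := Nat.range_nth_of_infinite h.inf
  have h2 : m ∈ Set.range (Nat.nth fun m => y.2.2 0 m = true) := by
    rw [h1]
    exact hm
  exact h2

/-! ### Transfer -/

theorem transfer (h : CD s y) {σ : Equiv.Perm ℕ} (hσ : Isom σ y y') : CD s y' := by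
  obtain ⟨h1, h2, h3⟩ := hσ
  have hs := σ.surjective
  refine ⟨?_, ?_, ?_, ?_, ?_, ?_, ?_, ?_, ?_, ?_, ?_, ?_⟩
  · intro m
    obtain ⟨m, rfl⟩ := hs m
    rw [h1]
    exact h.irr m
  · intro m n k
    obtain ⟨m, rfl⟩ := hs m
    obtain ⟨n, rfl⟩ := hs n
    obtain ⟨k, rfl⟩ := hs k
    rw [h1, h1, h1]
    exact h.tr m n k
  · intro m n hmn
    obtain ⟨m, rfl⟩ := hs m
    obtain ⟨n, rfl⟩ := hs n
    rw [h1, h1]
    exact h.tot m n fun e => hmn (by rw [e])
  · intro m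
    obtain ⟨m, rfl⟩ := hs m
    rw [h2, h.one]
  · intro g k m
    obtain ⟨m, rfl⟩ := hs m
    rw [h2, h2, h2, h.mul]
  · intro g m n hg
    obtain ⟨m, rfl⟩ := hs m
    obtain ⟨n, rfl⟩ := hs n
    rw [h2, h2, h1, h1]
    exact h.pos g m n hg
  · intro g m n hg
    obtain ⟨m, rfl⟩ := hs m
    obtain ⟨n, rfl⟩ := hs n
    rw [h2, h2, h1, h1]
    exact h.neg g m n hg
  · have : {m | y'.2.2 0 m = true} = σ '' {m | y.2.2 0 m = true} := by
      ext m
      obtain ⟨m, rfl⟩ := hs m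
      rw [σ.injective.mem_set_image]
      simp only [Set.mem_ofPred_eq, h3]
    rw [this]
    exact h.inf.image σ.injective.injOn
  · intro m
    obtain ⟨m, rfl⟩ := hs m
    obtain ⟨g, u, hu, e⟩ := h.dom m
    exact ⟨g, σ u, by rw [h3]; exact hu, by rw [h2, e]⟩
  · intro g u v
    obtain ⟨u, rfl⟩ := hs u
    obtain ⟨v, rfl⟩ := hs v
    rw [h3, h3, h2]
    intro hu hv e
    exact h.free g u v hu hv (σ.injective e)
  · intro i m
    obtain ⟨m, rfl⟩ := hs m
    rw [h3, h3]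
    exact h.pred i m
  · intro g u v
    obtain ⟨u, rfl⟩ := hs u
    obtain ⟨v, rfl⟩ := hs v
    rw [h3, h3, h2, h1]
    intro hu hv hg
    rw [h.tie g u v hu hv hg]
    have e1 : (∃ δ w, Btw dG 1 δ g ∧ y.2.2 0 w = true ∧ y.1 u (y.2.1 δ w) = true ∧
        y.1 (y.2.1 δ w) (y.2.1 g v) = true) ↔
        ∃ δ w, Btw dG 1 δ g ∧ y'.2.2 0 w = true ∧ y'.1 (σ u) (y'.2.1 δ w) = true ∧
          y'.1 (y'.2.1 δ w) (σ (y.2.1 g v)) = true := by
      refine exists_congr fun δ => Iff.symm ?_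
      rw [hs.exists]
      refine exists_congr fun w => ?_
      rw [h3, h2, h1, h1]
    have e2 : (∃ δ w, Btw dG 1 δ g ∧ y.2.2 0 w = true ∧ y.1 (y.2.1 g v) (y.2.1 δ w) = true ∧
        y.1 (y.2.1 δ w) u = true) ↔
        ∃ δ w, Btw dG 1 δ g ∧ y'.2.2 0 w = true ∧ y'.1 (σ (y.2.1 g v)) (y'.2.1 δ w) = true ∧
          y'.1 (y'.2.1 δ w) (σ u) = true := by
      refine exists_congr fun δ => Iff.symm ?_
      rw [hs.exists]
      refine exists_congr fun w => ?_
      rw [h3, h2, h1, h1]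
    rw [e1, e2]

theorem reduct (h : CD s y) (h' : CD s y') {σ : Equiv.Perm ℕ} (hσ : Isom σ y y') :
    ∃ τ, IsoZ τ (rd y) (rd y') := by
  obtain ⟨h1, h2, h3⟩ := hσ
  have a1 : ∀ n, ∃ k, en y' k = σ (en y n) := fun n =>
    en_surj h' (by rw [h3]; exact en_mem h n)
  have a2 : ∀ k, ∃ n, σ (en y n) = en y' k := by
    intro k
    obtain ⟨m, hm⟩ := σ.surjective (en y' k)
    obtain ⟨n, hn⟩ := en_surj h (m := m) (by rw [← h3, hm]; exact en_mem h' k)
    exact ⟨n, by rw [hn, hm]⟩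
  choose f hf using a1
  choose g hg using a2
  let τ : Equiv.Perm ℕ :=
    { toFun := f
      invFun := g
      left_inv := fun n => en_inj h (σ.injective (by rw [hg, hf]))
      right_inv := fun k => en_inj h' (by rw [hf, hg]) }
  have hτ : ∀ n, en y' (τ n) = σ (en y n) := hf
  refine ⟨τ, ?_, ?_, ?_⟩
  · intro m n
    simp only [rd, hτ, h1]
  · intro i m n
    simp only [rd, hτ, h2, h1]
  · intro i m
    simp only [rd, hτ, h3]

/-! ### Uniqueness -/

/-- The comparison of the points `n` and `g k`. -/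
def Q (y y' : XG G) (τ : Equiv.Perm ℕ) (g : G) : Prop :=
  ∀ n k, y.1 (en y n) (y.2.1 g (en y k)) = y'.1 (en y' (τ n)) (y'.2.1 g (en y' (τ k)))

theorem ne_of (h : CD s y) {g : G} (hg : g ≠ 1) (n k : ℕ) : en y n ≠ y.2.1 g (en y k) :=
  fun e => hg (h.free g _ _ (en_mem h k) (en_mem h n) e.symm)

theorem Q.rev (h : CD s y) (h' : CD s y') {τ : Equiv.Perm ℕ} (hτ : IsoZ τ (rd y) (rd y')) {g : G}
    (hQ : Q y y' τ g) (n k : ℕ) :
    y.1 (y.2.1 g (en y k)) (en y n) = y'.1 (y'.2.1 g (en y' (τ k))) (en y' (τ n)) := by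
  by_cases hg : g = 1
  · subst hg
    rw [h.one, h'.one]
    exact (hτ.1 k n).symm
  · rw [ord_ne h (ne_of h hg n k).symm, ord_ne h' (ne_of h' hg (τ n) (τ k)).symm, hQ n k]

theorem Q.gen (h : CD s y) (h' : CD s y') {τ : Equiv.Perm ℕ} (hτ : IsoZ τ (rd y) (rd y')) {g k : G}
    (hQ : Q y y' τ (g⁻¹ * k)) (m n : ℕ) :
    (y.1 (y.2.1 g (en y m)) (y.2.1 k (en y n)) =
      y'.1 (y'.2.1 g (en y' (τ m))) (y'.2.1 k (en y' (τ n)))) ∧
    y.1 (y.2.1 k (en y n)) (y.2.1 g (en y m)) =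
      y'.1 (y'.2.1 k (en y' (τ n))) (y'.2.1 g (en y' (τ m))) := by
  have e : y.2.1 k (en y n) = y.2.1 g (y.2.1 (g⁻¹ * k) (en y n)) := by
    rw [act h, mul_inv_cancel_left]
  have e' : y'.2.1 k (en y' (τ n)) = y'.2.1 g (y'.2.1 (g⁻¹ * k) (en y' (τ n))) := by
    rw [act h', mul_inv_cancel_left]
  rw [e, e']
  rcases Int.units_eq_one_or (chi g) with hg | hg
  · rw [ord_pos h hg, ord_pos h hg, ord_pos h' hg, ord_pos h' hg]
    exact ⟨hQ m n, hQ.rev h h' hτ m n⟩
  · rw [ord_neg h hg, ord_neg h hg, ord_neg h' hg, ord_neg h' hg]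
    exact ⟨hQ.rev h h' hτ m n, hQ m n⟩

theorem dG_one (u v : G) : dG 1 (u⁻¹ * v) = dG u v := by
  simp only [dG, inv_one, one_mul]

theorem q_all (hF : S_FM) (h : CD s y) (h' : CD s y') {τ : Equiv.Perm ℕ}
    (hτ : IsoZ τ (rd y) (rd y')) (g : G) : Q y y' τ g := by
  induction hN : dG 1 g using Nat.strong_induction_on generalizing g with
  | _ N ih =>
  obtain ⟨⟨fz, fs, _⟩, _, f1⟩ := hF
  by_cases h0 : dG 1 g = 0
  · obtain rfl : (1 : G) = g := (fz 1 g).1 h0
    intro n k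
    rw [h.one, h'.one]
    exact (hτ.1 n k).symm
  by_cases h1 : dG 1 g = 1
  · obtain ⟨i, rfl | rfl⟩ := (f1 g).1 h1
    · intro n k
      exact (hτ.2.1 i n k).symm
    · intro n k
      have hi : FreeGroup.of i ≠ (1 : G) := by
        intro e
        rw [e, inv_one] at h0
        exact h0 ((fz 1 1).2 rfl)
      have e : ∀ m, y.2.1 (FreeGroup.of i) (y.2.1 (FreeGroup.of i)⁻¹ m) = m := by
        intro m
        rw [act h, mul_inv_cancel, h.one]
      have e' : ∀ m, y'.2.1 (FreeGroup.of i) (y'.2.1 (FreeGroup.of i)⁻¹ m) = m := by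
        intro m
        rw [act h', mul_inv_cancel, h'.one]
      have hr : y.1 (en y k) (y.2.1 (FreeGroup.of i) (en y n)) =
          y'.1 (en y' (τ k)) (y'.2.1 (FreeGroup.of i) (en y' (τ n))) := (hτ.2.1 i k n).symm
      rcases Int.units_eq_one_or (chi (FreeGroup.of i)) with hg | hg
      · rw [← ord_pos h hg, ← ord_pos h' hg, e, e', ord_ne h (ne_of h hi k n).symm,
          ord_ne h' (ne_of h' hi (τ k) (τ n)).symm, hr]
      · rw [← ord_neg h hg, ← ord_neg h' hg, e, e', hr]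
  have h2 : 2 ≤ dG 1 g := by omega
  intro n k
  have hb : ∀ δ, Btw dG 1 δ g → Q y y' τ δ ∧ Q y y' τ (δ⁻¹ * g) := by
    rintro δ ⟨b1, b2, b3⟩
    have c1 : dG 1 δ ≠ 0 := fun e => b2 ((fz 1 δ).1 e).symm
    have c2 : dG δ g ≠ 0 := fun e => b3 ((fz δ g).1 e)
    refine ⟨ih _ ?_ δ rfl, ih _ ?_ (δ⁻¹ * g) rfl⟩
    · omega
    · rw [dG_one]
      omega
  refine Bool.eq_iff_iff.2 ?_
  rw [h.tie g _ _ (en_mem h n) (en_mem h k) h2, h'.tie g _ _ (en_mem h' _) (en_mem h' _) h2]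
  have e1 : (∃ δ w, Btw dG 1 δ g ∧ y.2.2 0 w = true ∧ y.1 (en y n) (y.2.1 δ w) = true ∧
        y.1 (y.2.1 δ w) (y.2.1 g (en y k)) = true) ↔
      ∃ δ w, Btw dG 1 δ g ∧ y'.2.2 0 w = true ∧ y'.1 (en y' (τ n)) (y'.2.1 δ w) = true ∧
        y'.1 (y'.2.1 δ w) (y'.2.1 g (en y' (τ k))) = true := by
    constructor
    · rintro ⟨δ, w, b, hw, w1, w2⟩
      obtain ⟨l, rfl⟩ := en_surj h hw
      refine ⟨δ, en y' (τ l), b, en_mem h' _, ?_, ?_⟩
      · rw [← (hb δ b).1 n l]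
        exact w1
      · rw [← ((hb δ b).2.gen h h' hτ l k).1]
        exact w2
    · rintro ⟨δ, w, b, hw, w1, w2⟩
      obtain ⟨l, rfl⟩ := en_surj h' hw
      obtain ⟨l, rfl⟩ := τ.surjective l
      refine ⟨δ, en y l, b, en_mem h _, ?_, ?_⟩
      · rw [(hb δ b).1 n l]
        exact w1
      · rw [((hb δ b).2.gen h h' hτ l k).1]
        exact w2
  have e2 : (∃ δ w, Btw dG 1 δ g ∧ y.2.2 0 w = true ∧ y.1 (y.2.1 g (en y k)) (y.2.1 δ w) = true ∧
        y.1 (y.2.1 δ w) (en y n) = true) ↔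
      ∃ δ w, Btw dG 1 δ g ∧ y'.2.2 0 w = true ∧
        y'.1 (y'.2.1 g (en y' (τ k))) (y'.2.1 δ w) = true ∧
        y'.1 (y'.2.1 δ w) (en y' (τ n)) = true := by
    constructor
    · rintro ⟨δ, w, b, hw, w1, w2⟩
      obtain ⟨l, rfl⟩ := en_surj h hw
      refine ⟨δ, en y' (τ l), b, en_mem h' _, ?_, ?_⟩
      · rw [← ((hb δ b).2.gen h h' hτ l k).2]
        exact w1
      · rw [← (hb δ b).1.rev h h' hτ n l]
        exact w2
    · rintro ⟨δ, w, b, hw, w1, w2⟩
      obtain ⟨l, rfl⟩ := en_surj h' hw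
      obtain ⟨l, rfl⟩ := τ.surjective l
      refine ⟨δ, en y l, b, en_mem h _, ?_, ?_⟩
      · rw [((hb δ b).2.gen h h' hτ l k).2]
        exact w1
      · rw [(hb δ b).1.rev h h' hτ n l]
        exact w2
  rw [e1, e2]

/-- The parametrization of the points. -/
theorem param (h : CD s y) : Function.Bijective fun p : G × ℕ => y.2.1 p.1 (en y p.2) := by
  constructor
  · rintro ⟨g, n⟩ ⟨k, m⟩ e
    simp only at e
    have e2 : y.2.1 (k⁻¹ * g) (en y n) = en y m := by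
      rw [← act h, e, act_inv h]
    have e3 := h.free _ _ _ (en_mem h n) (en_mem h m) e2
    obtain rfl : g = k := by
      rw [inv_mul_eq_one] at e3
      exact e3.symm
    rw [inv_mul_cancel, h.one] at e2
    rw [en_inj h e2]
  · intro m
    obtain ⟨g, u, hu, e⟩ := h.dom m
    obtain ⟨n, rfl⟩ := en_surj h hu
    exact ⟨(g, n), e⟩

theorem unique (hF : S_FM) (h : CD s y) (h' : CD s y') {τ : Equiv.Perm ℕ}
    (hτ : IsoZ τ (rd y) (rd y')) : ∃ σ, Isom σ y y' := by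
  let e : G × ℕ ≃ ℕ := Equiv.ofBijective _ (param h)
  let e' : G × ℕ ≃ ℕ := Equiv.ofBijective _ (param h')
  let σ : Equiv.Perm ℕ := e.symm.trans (((Equiv.refl G).prodCongr τ).trans e')
  have hσ : ∀ g n, σ (y.2.1 g (en y n)) = y'.2.1 g (en y' (τ n)) := by
    intro g n
    have h1 : e.symm (y.2.1 g (en y n)) = (g, n) := e.symm_apply_apply (g, n)
    show e' (((Equiv.refl G).prodCongr τ) (e.symm (y.2.1 g (en y n)))) = _
    rw [h1]
    rfl
  have hp : ∀ m, ∃ g n, m = y.2.1 g (en y n) := by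
    intro m
    obtain ⟨⟨g, n⟩, e⟩ := (param h).2 m
    exact ⟨g, n, e.symm⟩
  refine ⟨σ, ?_, ?_, ?_⟩
  · intro p q
    obtain ⟨g, m, rfl⟩ := hp p
    obtain ⟨k, n, rfl⟩ := hp q
    rw [hσ, hσ]
    exact ((q_all hF h h' hτ (g⁻¹ * k)).gen h h' hτ m n).1.symm
  · intro g p
    obtain ⟨k, n, rfl⟩ := hp p
    rw [hσ, act h', act h, hσ]
  · intro i p
    obtain ⟨g, n, rfl⟩ := hp p
    rw [hσ]
    by_cases hg : g = 1
    · subst hg
      rw [h.one, h'.one]
      cases i with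
      | zero => rw [en_mem h, en_mem h']
      | succ i => exact hτ.2.2 i n
    · have a : ∀ i, y.2.2 i (y.2.1 g (en y n)) = false := by
        intro i
        by_contra hc
        rw [Bool.not_eq_false] at hc
        have h0 : y.2.2 0 (y.2.1 g (en y n)) = true := by
          cases i with
          | zero => exact hc
          | succ i => exact h.pred i _ hc
        exact hg (h.free g _ _ (en_mem h n) h0 rfl)
      have a' : ∀ i, y'.2.2 i (y'.2.1 g (en y' (τ n))) = false := by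
        intro i
        by_contra hc
        rw [Bool.not_eq_false] at hc
        have h0 : y'.2.2 0 (y'.2.1 g (en y' (τ n))) = true := by
          cases i with
          | zero => exact hc
          | succ i => exact h'.pred i _ hc
        exact hg (h'.free g _ _ (en_mem h' (τ n)) h0 rfl)
      rw [a, a']

theorem t_RI (hF : S_FM) : S_RI :=
  ⟨fun _ _ _ _ h hσ => ⟨transfer h hσ, reduct h (transfer h hσ) hσ⟩,
    fun _ _ _ _ h h' hτ => unique hF h h' hτ⟩

end Pool.Agent.Y550.MO.Ri
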